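import Pool.Agent.helper57.PP.Spec

/-!
Row TR2 of the project PP (MP_974a61): a graph with at least as many edges as vertices contains a
nonempty even set.
-/

set_option autoImplicit false

namespace Pool.Agent.helper57.PP

open Finset

theorem TR2_sum {W : Type} [Fintype W] [DecidableEq W] (D : Finset (Finset W))
    (hD : ∀ e ∈ D, e.card = 2) : ∑ v, dg D v = 2 * D.card := by
  have h1 : ∀ v : W, dg D v = ∑ e ∈ D, if v ∈ e then 1 else 0 := fun v => by
    unfold dg
    rw [card_filter]
  simp_rw [h1]
  rw [sum_comm]
  have h2 : ∀ e ∈ D, (∑ v : W, if v ∈ e then 1 else 0) = 2 := by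
    intro e he
    rw [← card_filter, ← hD e he]
    congr 1
    ext v
    simp
  rw [sum_congr rfl h2, sum_const, smul_eq_mul, mul_comm]

theorem TR2 : TR2_stmt := by
  intro W _ _ _ X hX hcard
  obtain ⟨v0⟩ := ‹Nonempty W›
  have hlt : ((univ.erase v0 : Finset W).powerset).card < X.powerset.card := by
    rw [card_powerset, card_powerset]
    refine Nat.pow_lt_pow_right (by norm_num) ?_
    rw [card_erase_of_mem (mem_univ v0), card_univ]
    have : 0 < Fintype.card W := Fintype.card_pos_iff.2 ⟨v0⟩
    omega
  obtain ⟨S, hS, S', hS', hne, heq⟩ := exists_ne_map_eq_of_card_lt_of_maps_to hlt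
    (f := fun S : Finset (Finset W) => (univ.erase v0).filter fun v => Odd (dg S v))
    (fun S _ => by
      rw [mem_coe, mem_powerset]
      exact filter_subset _ _)
  rw [mem_powerset] at hS hS'
  have hsub : symmDiff S S' ⊆ X := by
    intro e he
    rcases mem_symmDiff.1 he with h | h
    · exact hS h.1
    · exact hS' h.1
  have hodd : ∀ v, v ≠ v0 → Even (dg (symmDiff S S') v) := by
    intro v hv
    rw [← Nat.not_odd_iff_even, odd_dg_symmDiff]
    have h1 : v ∈ (univ.erase v0).filter (fun v => Odd (dg S v)) ↔
        v ∈ (univ.erase v0).filter (fun v => Odd (dg S' v)) := by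
      rw [heq]
    simp only [mem_filter, mem_erase, ne_eq, hv, not_false_eq_true, mem_univ, and_self,
      true_and] at h1
    tauto
  refine ⟨symmDiff S S', hsub, ?_, ?_⟩
  · rw [nonempty_iff_ne_empty]
    intro h
    exact hne (symmDiff_eq_bot.1 h)
  · intro v
    by_cases hv : v = v0
    · subst hv
      have h1 := TR2_sum (symmDiff S S') fun e he => hX e (hsub he)
      rw [← add_sum_erase univ _ (mem_univ v)] at h1
      have h2 : Even (∑ x ∈ univ.erase v, dg (symmDiff S S') x) :=
        even_sum _ fun x hx => hodd x (ne_of_mem_erase hx)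
      have h3 : Even (dg (symmDiff S S') v + ∑ x ∈ univ.erase v, dg (symmDiff S S') x) := by
        rw [h1]
        exact even_two_mul _
      exact (Nat.even_add.1 h3).2 h2
    · exact hodd v hv

end Pool.Agent.helper57.PP
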